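import Pool.Agent.Q18.SC.Asm
import Pool.Agent.Q144.SC.Ant
import Pool.Agent.Q144.SC.Cen
import Pool.Agent.Q144.SC.Rga
import Pool.Agent.Q144.SC.Smp
import Pool.Agent.Q144.SC.Str
import Pool.Agent.Q237.SC.Fin
import Pool.Agent.Q237.SC.Uni

/-!
# Almost all Cayley graphs of all finite groups are stable

`Q18.SC.cayAdj S x y` is adjacency in `Cay(G,S)`, `Q18.SC.coverAdj` adjacency in the standard
double cover, `Q18.SC.Stable` stability, `Q18.SC.invClosed G` the set of all inverse-closed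
subsets of `G` and `Q18.SC.prop G` the proportion `p(G)` of the inverse-closed subsets with a
stable Cayley graph.

Idea: for a random inverse-closed `S` let `(α,β)` be a pair of permutations of `G` with
`y x⁻¹ ∈ S ↔ β(y) α(x)⁻¹ ∈ S`.  A sample of `c √n` rows and columns and a union bound show that
`β(y) α(x)⁻¹ ∈ {y x⁻¹, x y⁻¹}` for almost all pairs, for all such `(α,β)` simultaneously, outside
a set of `S` of exponentially small proportion.  A structure theorem for such pairs gives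
`α = β` at almost all points, and then everywhere, as neighbourhoods of different vertices of a
random Cayley graph differ at many places.
-/

open Pool.Agent.Q18.SC

namespace Pool.Agent.Results.MP_439c3d_co.AlmostAllStable

universe u

/-- There are `c > 0` and `n₀` with `p(G) ≥ 1 - 2^(-c|G|)` for all finite groups `G` of order at
least `n₀`; in particular `p(G) → 1` as `|G| → ∞`. -/
theorem result :
    (∃ c : ℝ, 0 < c ∧ ∃ n₀ : ℕ, ∀ (G : Type u) [Group G] [Fintype G],
      n₀ ≤ Fintype.card G → 1 - (2 : ℝ) ^ (-(c * (Fintype.card G : ℝ))) ≤ prop G) ∧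
    (∀ ε : ℝ, 0 < ε → ∃ r₀ : ℕ, ∀ (G : Type u) [Group G] [Fintype G],
      r₀ ≤ Fintype.card G → 1 - ε ≤ prop G) := by
  have hcen : S_CEN.{u} := Q144.SC.cen
  have hmil : S_MIL.{u} := Q144.SC.mil
  have hstr : S_STR.{u} := Q144.SC.str (Q144.SC.rga hcen) Q144.SC.ant
  have huni : S_UNI.{u} := Q237.SC.uni Q144.SC.smp
  have hfin : S_FIN.{u} := Q237.SC.fin hmil
  have hcom : S_COM.{u} := Q237.SC.com hmil
  have hmain := main hstr huni hfin hcom
  refine ⟨hmain, ?_⟩
  obtain ⟨c, hc, n₀, hn₀⟩ := hmain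
  intro ε hε
  obtain ⟨m, hm⟩ : ∃ m : ℕ, (1 / 2 : ℝ) ^ m < ε :=
    exists_pow_lt_of_lt_one hε (by norm_num)
  obtain ⟨r, hr⟩ := exists_nat_gt ((m : ℝ) / c)
  refine ⟨max n₀ r, ?_⟩
  intro G _ _ hG
  have h1 := hn₀ G (le_trans (le_max_left _ _) hG)
  have hr' : (r : ℝ) ≤ (Fintype.card G : ℝ) := by
    exact_mod_cast le_trans (le_max_right _ _) hG
  have h2 : (m : ℝ) ≤ c * (Fintype.card G : ℝ) := by
    rw [div_lt_iff₀ hc] at hr
    nlinarith
  have h3 : (2 : ℝ) ^ (-(c * (Fintype.card G : ℝ))) ≤ ε := by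
    calc (2 : ℝ) ^ (-(c * (Fintype.card G : ℝ))) ≤ (2 : ℝ) ^ (-(m : ℝ)) :=
          Real.rpow_le_rpow_of_exponent_le (by norm_num) (by linarith)
      _ = (1 / 2 : ℝ) ^ m := by
          rw [Real.rpow_neg (by norm_num), Real.rpow_natCast, one_div, inv_pow]
      _ ≤ ε := hm.le
  linarith

end Pool.Agent.Results.MP_439c3d_co.AlmostAllStable
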